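import Pool.Agent.Helper40.TA.Meet

/-!
Chains of sigma algebras and the lemma of Zorn (sheet TA, MP_7a8f48_an).
-/

open MeasureTheory Filter Topology
open scoped ComplexConjugate

namespace Pool.Agent.Helper40.TA

open Pool.Agent.Helper98.TW

variable {Ω : Type} [m0 : MeasurableSpace Ω] {μ : Measure Ω} {D E 𝒜 𝒟 : SA Ω} {f : Ω → ℂ}
  {R R' : Ω → Ω}

/-- the supremum of a set of sigma algebras -/
noncomputable def sp (c : Set (SA Ω)) : SA Ω := @sSup (MeasurableSpace Ω) _ c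

omit m0 in
theorem le_sp {c : Set (SA Ω)} (h : D ∈ c) : @LE.le (MeasurableSpace Ω) _ D (sp c) :=
  le_sSup (α := MeasurableSpace Ω) h

theorem lm_sp {c : Set (SA Ω)} (h : ∀ D ∈ c, Lm D) : Lm (sp c) :=
  sSup_le (α := MeasurableSpace Ω) h

theorem lq_sp {c : Set (SA Ω)} (h : ∀ D ∈ c, LQ μ D 𝒟) : LQ μ (sp c) 𝒟 := by
  intro f hf
  refine am_of_sets ?_ hf
  have : @LE.le (MeasurableSpace Ω) _ (sp c) (@eventuallyMeasurableSpace Ω 𝒟 (ae μ) _) :=
    sSup_le (α := MeasurableSpace Ω) (fun D hD s hs => @set_of_lq Ω m0 μ D 𝒟 (h D hD) s hs)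
  exact fun s hs => this s hs

theorem comap_sSup_image {Ω₁ Ω₂ : Type} (R : Ω₁ → Ω₂) (c : Set (MeasurableSpace Ω₂)) :
    MeasurableSpace.comap R (sSup c) = sSup ((fun D => MeasurableSpace.comap R D) '' c) := by
  rw [sSup_eq_iSup, MeasurableSpace.comap_iSup, sSup_image]
  congr 1
  funext D
  rw [MeasurableSpace.comap_iSup]

theorem cm_sp {Ω₁ Ω₂ : Type} (R : Ω₁ → Ω₂) (c : Set (SA Ω₂)) :
    cm R (sp c) = sp ((fun D => cm R D) '' c) := comap_sSup_image R c

/-- invariance in terms of inverse images -/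
theorem lq_cm_of_ia (h : IA μ D R R') : LQ μ (cm R D) D := by
  intro f hf
  refine am_of_sets ?_ hf
  rintro s ⟨t, ht, rfl⟩
  have h1 : AM μ D (t.indicator fun _ => (1 : ℂ)) :=
    am_of ((@measurable_const _ _ _ D (1 : ℂ)).indicator ht)
  obtain ⟨g, hg, hfg⟩ := am_iff.1 (h.2 _ h1).1
  refine ⟨g ⁻¹' {1}, hg (measurableSet_singleton 1), ?_⟩
  refine eventuallyEq_set.2 ?_
  filter_upwards [hfg] with x hx
  by_cases hxs : R x ∈ t
  · simp only [Set.indicator_of_mem hxs] at hx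
    simp [hxs, ← hx]
  · simp only [Set.indicator_of_notMem hxs] at hx
    simp [hxs, ← hx]

theorem ia_of_lq (hD : Lm D) (hR : MeasurePreserving R μ μ) (hR' : MeasurePreserving R' μ μ)
    (h : LQ μ (cm R D) D) (h' : LQ μ (cm R' D) D) : IA μ D R R' := by
  refine ⟨hD, fun f hf => ?_⟩
  obtain ⟨g, hg, hfg⟩ := am_iff.1 hf
  constructor
  · have h1 : AM μ (cm R D) (fun x => g (R x)) :=
      am_of (@Measurable.comp _ _ _ (cm R D) D _ _ _ hg (comap_measurable R))
    refine am_congr (h _ h1) ?_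
    filter_upwards [ae_comp hR hfg] with x hx
    exact hx.symm
  · have h1 : AM μ (cm R' D) (fun x => g (R' x)) :=
      am_of (@Measurable.comp _ _ _ (cm R' D) D _ _ _ hg (comap_measurable R'))
    refine am_congr (h' _ h1) ?_
    filter_upwards [ae_comp hR' hfg] with x hx
    exact hx.symm

theorem ia_sp {c : Set (SA Ω)} (hS : Sys μ R R') (h : ∀ D ∈ c, IA μ D R R') :
    IA μ (sp c) R R' := by
  refine ia_of_lq (lm_sp fun D hD => (h D hD).1) hS.mp hS.mp' ?_ ?_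
  · rw [cm_sp]
    refine lq_sp ?_
    rintro _ ⟨D, hD, rfl⟩
    exact lq_trans (lq_cm_of_ia (h D hD)) (lq_of_le (le_sp hD))
  · rw [cm_sp]
    refine lq_sp ?_
    rintro _ ⟨D, hD, rfl⟩
    exact lq_trans (lq_cm_of_ia (h D hD).symm) (lq_of_le (le_sp hD))

/-- a function with vanishing conditional expectations for the members of a chain vanishes if it
is measurable for the supremum -/
theorem zero_of_chain [IsFiniteMeasure μ] {c : Set (SA Ω)} (hne : c.Nonempty)
    (hc : ∀ D ∈ c, ∀ E ∈ c, @LE.le (MeasurableSpace Ω) _ D E ∨ @LE.le (MeasurableSpace Ω) _ E D)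
    (hm : ∀ D ∈ c, Lm D) (hf : Integrable f μ) (h : ∀ D ∈ c, μ[f|D] =ᵐ[μ] 0)
    (hs : AM μ (sp c) f) : f =ᵐ[μ] 0 := by
  have hsm : Lm (sp c) := lm_sp hm
  have hint : ∀ s, MeasurableSet[sp c] s → ∫ x in s, f x ∂μ = 0 := by
    have hgen : sp c = MeasurableSpace.generateFrom {s | ∃ D ∈ c, MeasurableSet[D] s} := by
      refine le_antisymm (α := MeasurableSpace Ω) ?_ ?_
      · refine sSup_le (α := MeasurableSpace Ω) fun D hD s hs => ?_
        exact MeasurableSpace.measurableSet_generateFrom ⟨D, hD, hs⟩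
      · refine MeasurableSpace.generateFrom_le ?_
        rintro s ⟨D, hD, hs⟩
        exact le_sp hD s hs
    have hpi : IsPiSystem {s : Set Ω | ∃ D ∈ c, MeasurableSet[D] s} := by
      rintro s ⟨D, hD, hs⟩ t ⟨E, hE, ht⟩ -
      rcases hc D hD E hE with hDE | hED
      · exact ⟨E, hE, (hDE s hs).inter ht⟩
      · exact ⟨D, hD, hs.inter (hED t ht)⟩
    have hone : ∀ D ∈ c, ∀ s, MeasurableSet[D] s → ∫ x in s, f x ∂μ = 0 := by
      intro D hD s hs
      rw [← setIntegral_condExp (hm D hD) hf hs]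
      have : ∫ x in s, (μ[f|D]) x ∂μ = ∫ x in s, (0 : ℂ) ∂μ :=
        integral_congr_ae (ae_restrict_of_ae (h D hD))
      rw [this]
      simp
    obtain ⟨D₀, hD₀⟩ := hne
    have htot : ∫ x, f x ∂μ = 0 := by
      have := hone D₀ hD₀ Set.univ MeasurableSet.univ
      simpa using this
    intro s hs
    refine @MeasurableSpace.induction_on_inter Ω (sp c)
      (fun s _ => ∫ x in s, f x ∂μ = 0) _ hgen hpi ?_ ?_ ?_ ?_ s hs
    · simp
    · rintro t ⟨D, hD, ht⟩
      exact hone D hD t ht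
    · intro t ht hft
      rw [setIntegral_compl (hsm t ht) hf, hft, htot, sub_zero]
    · intro g hd hg hfg
      rw [integral_iUnion (fun i => hsm _ (hg i)) hd hf.integrableOn]
      simp [hfg]
  have h1 : μ[f|sp c] =ᵐ[μ] 0 := by
    have := ae_eq_condExp_of_forall_setIntegral_eq hsm hf (g := fun _ => (0 : ℂ))
      (fun s _ _ => by simp) (fun s hs _ => by simp [hint s hs]) aestronglyMeasurable_const
    exact this.symm
  have h2 : μ[f|sp c] =ᵐ[μ] f := condExp_of_aestronglyMeasurable' hsm hs hf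
  exact h2.symm.trans h1

/-- the closure of a sigma algebra under changes on null sets -/
noncomputable def cl (μ : Measure Ω) (D : SA Ω) : SA Ω :=
  @min (MeasurableSpace Ω) _ (@eventuallyMeasurableSpace Ω D (ae μ) _) m0

theorem lm_cl : Lm (cl μ D) := inf_le_right (α := MeasurableSpace Ω)

theorem le_cl (h : Lm D) : @LE.le (MeasurableSpace Ω) _ D (cl μ D) :=
  le_inf (α := MeasurableSpace Ω) (fun s hs => ⟨s, hs, EventuallyEq.rfl⟩) h

theorem lq_cl : LQ μ (cl μ D) D := by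
  intro f hf
  refine am_of_sets (fun s hs => ?_) hf
  have h : @LE.le (MeasurableSpace Ω) _ (cl μ D) (@eventuallyMeasurableSpace Ω D (ae μ) _) :=
    inf_le_left (α := MeasurableSpace Ω)
  exact h s hs

theorem le_cl_of_lq (hD : Lm D) (h : LQ μ D E) : @LE.le (MeasurableSpace Ω) _ D (cl μ E) :=
  le_inf (α := MeasurableSpace Ω) (fun _ hs => set_of_lq h hs) hD

theorem ia_cl (h : IA μ D R R') : IA μ (cl μ D) R R' := by
  have h1 : LQ μ D (cl μ D) := lq_of_le (le_cl h.1)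
  exact ⟨lm_cl, fun f hf => ⟨h1 _ (h.2 f (lq_cl f hf)).1, h1 _ (h.2 f (lq_cl f hf)).2⟩⟩

/-- the lemma of Zorn for sigma algebras mod null sets -/
theorem exists_max {Q : SA Ω → Prop} {D₀ : SA Ω} (h0 : Q D₀) (hlm : ∀ D, Q D → Lm D)
    (hcl : ∀ D, Q D → Q (cl μ D))
    (hch : ∀ c : Set (SA Ω), c.Nonempty → (∀ D ∈ c, ∀ E ∈ c,
      @LE.le (MeasurableSpace Ω) _ D E ∨ @LE.le (MeasurableSpace Ω) _ E D) →
      (∀ D ∈ c, Q D) → Q (sp c)) :
    ∃ D, Q D ∧ LQ μ D₀ D ∧ ∀ D', Q D' → LQ μ D D' → LQ μ D' D := by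
  have hz : ∃ M : SA Ω, @LE.le (MeasurableSpace Ω) _ D₀ M ∧ Q M ∧
      ∀ E : SA Ω, Q E → @LE.le (MeasurableSpace Ω) _ M E → @LE.le (MeasurableSpace Ω) _ E M := by
    obtain ⟨M, hM, hmax⟩ := zorn_le_nonempty₀ (α := MeasurableSpace Ω) {D | Q D} (by
      intro c hcs hc y hy
      refine ⟨sp c, hch c ⟨y, hy⟩ (fun D hD E hE => hc.total hD hE) (fun D hD => hcs hD),
        fun z hz => le_sp hz⟩) D₀ h0
    exact ⟨M, hM, hmax.1, fun E hE h => hmax.2 hE h⟩
  obtain ⟨M, hM, hQ, hmax⟩ := hz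
  refine ⟨M, hQ, lq_of_le hM, fun D' hD' hle => ?_⟩
  have h1 : @LE.le (MeasurableSpace Ω) _ M (cl μ D') := le_cl_of_lq (hlm _ hQ) hle
  have h2 : @LE.le (MeasurableSpace Ω) _ (cl μ D') M := hmax _ (hcl _ hD') h1
  exact lq_trans (lq_of_le (le_cl (hlm _ hD'))) (lq_of_le h2)

end Pool.Agent.Helper40.TA
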