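import Pool.Agent.Helper98.TW.Basic

/-!
The meet of two sigma algebras mod null sets (sheet TA, MP_7a8f48_an).
-/

open MeasureTheory Filter Topology
open scoped ComplexConjugate

namespace Pool.Agent.Helper40.TA

open Pool.Agent.Helper98.TW

variable {Ω : Type} [m0 : MeasurableSpace Ω] {μ : Measure Ω} {D E 𝒜 : SA Ω} {f : Ω → ℂ}
  {R R' : Ω → Ω}

/-- the meet of two sigma algebras mod null sets -/
noncomputable def mt (μ : Measure Ω) (D E : SA Ω) : SA Ω :=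
  @min (MeasurableSpace Ω) _ (@min (MeasurableSpace Ω) _
    (@eventuallyMeasurableSpace Ω D (ae μ) _) (@eventuallyMeasurableSpace Ω E (ae μ) _)) m0

theorem lm_mt : Lm (mt μ D E) := inf_le_right (α := MeasurableSpace Ω)

theorem lq_mt_left : LQ μ (mt μ D E) D := by
  intro f hf
  refine am_of_sets (fun s hs => ?_) hf
  have h : @LE.le (MeasurableSpace Ω) _ (mt μ D E) (@eventuallyMeasurableSpace Ω D (ae μ) _) :=
    (inf_le_left (α := MeasurableSpace Ω)).trans (inf_le_left (α := MeasurableSpace Ω))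
  exact h s hs

theorem lq_mt_right : LQ μ (mt μ D E) E := by
  intro f hf
  refine am_of_sets (fun s hs => ?_) hf
  have h : @LE.le (MeasurableSpace Ω) _ (mt μ D E) (@eventuallyMeasurableSpace Ω E (ae μ) _) :=
    (inf_le_left (α := MeasurableSpace Ω)).trans (inf_le_right (α := MeasurableSpace Ω))
  exact h s hs

theorem am_mt (hD : Lm D) : AM μ (mt μ D E) f ↔ AM μ D f ∧ AM μ E f := by
  constructor
  · exact fun h => ⟨lq_mt_left _ h, lq_mt_right _ h⟩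
  · rintro ⟨h1, h2⟩
    obtain ⟨g1, hg1, hfg1⟩ := am_iff.1 h1
    obtain ⟨g2, hg2, hfg2⟩ := am_iff.1 h2
    refine am_iff.2 ⟨g1, fun U hU => ?_, hfg1⟩
    refine MeasurableSpace.measurableSet_inf.2 ⟨MeasurableSpace.measurableSet_inf.2
      ⟨⟨g1 ⁻¹' U, hg1 hU, EventuallyEq.rfl⟩, g2 ⁻¹' U, hg2 hU, ?_⟩, hD _ (hg1 hU)⟩
    refine eventuallyEq_set.2 ?_
    filter_upwards [hfg1, hfg2] with x hx1 hx2
    simp [Set.mem_preimage, ← hx1, ← hx2]

theorem lq_mt (hD : Lm D) (h1 : LQ μ 𝒜 D) (h2 : LQ μ 𝒜 E) : LQ μ 𝒜 (mt μ D E) :=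
  fun f hf => (am_mt hD).2 ⟨h1 f hf, h2 f hf⟩

theorem ia_mt (h1 : IA μ D R R') (h2 : IA μ E R R') : IA μ (mt μ D E) R R' := by
  refine ⟨lm_mt, fun f hf => ?_⟩
  obtain ⟨a, b⟩ := (am_mt h1.1).1 hf
  exact ⟨(am_mt h1.1).2 ⟨(h1.2 f a).1, (h2.2 f b).1⟩, (am_mt h1.1).2 ⟨(h1.2 f a).2, (h2.2 f b).2⟩⟩

end Pool.Agent.Helper40.TA
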